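import Pool.Agent.R425.CC.Main
import Pool.Agent.R425.CC.Sel
import Pool.Agent.R425.CC.Tr
import Pool.Agent.Y791.BC.ConjA
import Pool.Agent.Y791.BC.EmbP
import Pool.Agent.Y791.BC.Desc
import Pool.Agent.Y791.BF.FrobRes
import Pool.Agent.Y791.BF.EmbFG
import Pool.Agent.Y791.BF.ObsFG

/-!
# Birational sections of curves over constant elliptic curves

Let `k` be a field finitely generated over `ℚ` which has a finite extension `k'` isomorphic to a field
of rational functions `K(T₁, …, T_r)`, `r ≥ 1`, and let `E : y ^ 2 = x ^ 3 + a x + b` be an elliptic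
curve over the field of constants `K`.  Suppose that the 2-power Selmer groups of `E` over `K` (not
over `K(T₁, …, T_r)`) are killed by one integer `m ≥ 1`.  Then the birational section conjecture holds
for every curve `X` over `k` which has, over `k'`, a nonconstant map to `E`: every section of
`Gal(Ω/F) → Gal(B/k)`, where `F` is the function field of `X` and `Ω`, `B` are algebraic closures of
`F`, `k`, which is given by rational points over the completions `L_v` of the number fields `L` at
their finite places, for all the embeddings of `k` in `L_v`, arises from exactly one `k`-rational point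
of `X`.  By the theorem of Koenigsmann on birational sections over `p`-adically closed fields all
sections are of this kind.

The Selmer groups here are taken with respect to all the embeddings of the field in the fields `L_v`.
The condition passes from `K` to `K(T₁, …, T_r)`, which is the first part of the theorem.  It is
verified, with `m = 2`, for the following number fields `K`.  Let `E` be an elliptic
curve over `ℚ` with trivial 2-Selmer group, for example `X_0(11)`, and let `K` be any Galois extension
of `ℚ` of degree a power of two, ramified only at primes `l` of good reduction such that the number of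
points of `E` over `ℤ/l` is odd, in which the primes dividing the discriminant and two split completely
(and which is totally real if the discriminant is positive).  Nothing is assumed about the
Tate-Shafarevich group of `E` over `K`, and nothing about the specialisations `E` over `K(t)`,
where the rank of `E` is not bounded.

The proof.  Let `D` be the point of the section on `E`, a point over the fixed field of the section.
* The differences `x(D) - e_i` are squares up to constants, so that over `K_1(T)`, `K_1` a finite
  extension of `K`, the point `D` is a double of a point fixed by the section; by induction `D` is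
  `2 ^ n D_n` with `D_n` fixed by the section over `K_n(T)`.
* So the cocycle of the division of `D` by `2 ^ n` comes from a cocycle of the absolute Galois group of
  `K`, and this is locally trivial at all the completions, because `T` can be mapped to any element
  which is transcendental over `K`.
* So `m D` is divisible by all `2 ^ n` in the points over the fixed field; above two its value is a
  torsion point, and a section whose local points above two are algebraic arises from a rational point.
* The same holds for the cocycles of the Selmer groups over `K(T)`: their Kummer classes have even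
  valuation at all the places of `K(T)`, by the local triviality at values of `T` close to the zeros of
  the polynomials, so they are constants up to squares; the cocycle comes from one over `K`.
-/

set_option autoImplicit false

open IsDedekindDomain NumberField WeierstrassCurve Pool.Agent.TH942 Pool.Agent.TH954
  Pool.Agent.Y791.BF Pool.Agent.Y791.BC

namespace Pool.Agent.Results.MP_8312c9_nt.ConstantEllipticCurves

/-- The section `s` is given by a rational point over the extension `L` of `k` along `φ`, with the
algebraic closure of `L` as field of values. -/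
def GeometricAlong {k F Ω B : Type} [Field k] [Field F] [Field Ω] [Field B] [Algebra F Ω]
    [Algebra k Ω] [Algebra k B] (s : GalSection k F Ω B) {L : Type} [Field L] (φ : k →+* L) :
    Prop :=
  letI := φ.toAlgebra
  s.GeometricOver L (AlgebraicClosure L)

/-- The class of the cocycle `ξ` with values in the points of `y ^ 2 = x ^ 3 + a x + b` over the
algebraic closure of `K` becomes trivial over the extension `L` of `K` along `φ`. -/
def TrivialAlong {K : Type} [Field K] (a b : K)
    (ξ : (AlgebraicClosure K ≃ₐ[K] AlgebraicClosure K) → AlgPt (sw a b) K) {L : Type} [Field L]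
    (φ : K →+* L) : Prop :=
  letI := φ.toAlgebra
  TrivialOver (sw a b) ξ L

open scoped Classical in
/-- The Selmer groups of the curve `y ^ 2 = x ^ 3 + a x + b` over `K` for the multiplications by
powers of two, with respect to all the embeddings of `K` in completions of number fields at finite
places, are killed by `m`: a continuous cocycle of the absolute Galois group of `K` with values in
the points of order dividing `2 ^ n`, the class of which in the points of the curve becomes trivial
over all these completions, is, after the multiplication by `m`, the coboundary of a point of order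
dividing `2 ^ n`. -/
def SelmerKilled (K : Type) [Field K] (a b : K) (m : ℕ) : Prop :=
  ∀ (n : ℕ) (ξ : (AlgebraicClosure K ≃ₐ[K] AlgebraicClosure K) → AlgPt (sw a b) K),
    IsCocycle (sw a b) ξ → (∀ σ, (2 ^ n) • ξ σ = 0) →
    (∀ (L : Type) [Field L] [NumberField L] (v : HeightOneSpectrum (𝓞 L))
      (φ : K →+* v.adicCompletion L), TrivialAlong a b ξ φ) →
    ∃ T : AlgPt (sw a b) K, (2 ^ n) • T = 0 ∧ ∀ σ, m • ξ σ = act (sw a b) σ T - T

/-- A type with the structure of a field. -/
structure Fld where
  /-- the type -/
  F : Type
  /-- the structure -/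
  str : Field F

instance (K : Fld) : Field K.F := K.str

/-- The field `K(T₁)(T₂)…(T_r)` of rational functions in `r` variables over `K`. -/
noncomputable def rat (K : Type) [hK : Field K] : ℕ → Fld
  | 0 => ⟨K, hK⟩
  | r + 1 => ⟨RatFunc (rat K r).F, inferInstance⟩

/-- The inclusion of `K` in the field `K(T₁)(T₂)…(T_r)`. -/
noncomputable def inc (K : Type) [Field K] : ∀ r : ℕ, K →+* (rat K r).F
  | 0 => RingHom.id K
  | r + 1 => (algebraMap (rat K r).F (RatFunc (rat K r).F)).comp (inc K r)

/-- The 2-Selmer group of `W` over `ℚ` is trivial: `W(ℚ)` is finite of odd order and `Ш(W/ℚ)` has no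
element of order two. -/
def TrivialTwoSelmer (W : WeierstrassCurve ℤ) : Prop :=
  Finite (W.map (Int.castRingHom ℚ)).toAffine.Point ∧
  Odd (Nat.card (W.map (Int.castRingHom ℚ)).toAffine.Point) ∧
  ∀ s : Pool.Agent.TH841.NF.D.Sha (W.map (Int.castRingHom ℚ)), 2 • s = 0 → s = 0

/-- `W` is an elliptic curve `y² = x³ + a x + b` with integral coefficients. -/
def IsShort (W : WeierstrassCurve ℤ) : Prop := (W.a₁ = 0 ∧ W.a₂ = 0 ∧ W.a₃ = 0) ∧ W.Δ ≠ 0

/-- The number of the points of `W` over `ℤ/l`, with the point at infinity. -/
noncomputable def pointCount (W : WeierstrassCurve ℤ) (l : ℕ) : ℕ :=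
  Nat.card {P : ZMod l × ZMod l //
    (W.map (Int.castRingHom (ZMod l))).toAffine.Equation P.1 P.2} + 1

/-- `K` is a Galois extension of `ℚ` of degree a power of two, ramified only at primes `l ∤ 2 Δ` such
that the number of the points of `W` over `ℤ/l` is odd; the prime ideals containing `2 Δ` have residue
degree one (and, `K` being Galois and unramified at them, these primes split completely); and if
`0 < Δ` then `K` is totally real. -/
structure IsTwoExtension (W : WeierstrassCurve ℤ) (K : Type) [Field K] [NumberField K] : Prop where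
  galois : IsGalois ℚ K
  degree : ∃ j, Module.finrank ℚ K = 2 ^ j
  ramified : ∀ l : ℕ, l.Prime → (l : ℤ) ∣ NumberField.discr K →
    ¬ (l : ℤ) ∣ 2 * W.Δ ∧ Odd (pointCount W l)
  split : ∀ v : HeightOneSpectrum (𝓞 K), ((2 * W.Δ : ℤ) : 𝓞 K) ∈ v.asIdeal →
    (Ideal.absNorm v.asIdeal).Prime
  real : 0 < W.Δ → ∀ v : InfinitePlace K, v.IsReal

/-- The curve `y² = x³ - 13392 x - 1080432`, a short equation of `X_0(11)`. -/
def X11 : WeierstrassCurve ℤ := ⟨0, 0, 0, -13392, -1080432⟩

lemma SelmerKilled.toL {K : Type} [Field K] {a b : K} {m : ℕ} (h : SelmerKilled K a b m) :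
    SelKilledL K 2 a b m := by
  intro n ξ h1 h2 h3
  exact h n ξ h1 h2 (fun L _ _ v φ => h3 ⟨L, v, φ⟩)

lemma SelmerKilled.of {K : Type} [Field K] {a b : K} {m : ℕ} (h : SelKilledL K 2 a b m) :
    SelmerKilled K a b m := by
  intro n ξ h1 h2 h3
  exact h n ξ h1 h2 (fun i => h3 i.L i.v i.φ)

lemma ext_of {K : Type} [Field K] [NumberField K] {W : WeierstrassCurve ℤ}
    (h : IsTwoExtension W K) : Pool.Agent.R425.D.TwoExt (fun _ : Fin 1 => W) K := by
  have e : ∏ _i : Fin 1, W.Δ = W.Δ := by simp
  refine ⟨h.galois, h.degree, ?_, ?_, fun _ => h.real⟩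
  · intro l hl hd
    rw [e]
    exact ⟨(h.ramified l hl hd).1, fun _ => (h.ramified l hl hd).2⟩
  · intro v hv
    rw [e] at hv
    exact h.split v hv

lemma good_of {K : Type} [Field K] [NumberField K] {W : WeierstrassCurve ℤ} (hW : IsShort W)
    (hT : TrivialTwoSelmer W) (h : IsTwoExtension W K) :
    Pool.Agent.R425.D.Good (sw (W.a₄ : K) (W.a₆ : K)) := by
  obtain ⟨h1, h2, h3⟩ := (ext_of h).sel (fun _ => hW.2) (fun _ => hT) 0
  have e : (W.map (Int.castRingHom K)) = sw (W.a₄ : K) (W.a₆ : K) := by
    ext
    · show ((W.a₁ : ℤ) : K) = 0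
      rw [hW.1.1, Int.cast_zero]
    · show ((W.a₂ : ℤ) : K) = 0
      rw [hW.1.2.1, Int.cast_zero]
    · show ((W.a₃ : ℤ) : K) = 0
      rw [hW.1.2.2, Int.cast_zero]
    · rfl
    · rfl
  rw [← e]
  exact ⟨h1, h2, h3⟩

lemma charZero_rat (K : Type) [Field K] [CharZero K] (r : ℕ) : CharZero (rat K r).F :=
  charZero_of_injective_ringHom (inc K r).injective

lemma ess_rat (K : Type) [Field K] [CharZero K] [hK : Algebra.EssFiniteType ℚ K] (r : ℕ) :
    letI := charZero_rat K r
    Algebra.EssFiniteType ℚ (rat K r).F := by
  induction r with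
  | zero => exact hK
  | succ r ih =>
    letI := charZero_rat K r
    letI : CharZero (RatFunc (rat K r).F) := charZero_rat K (r + 1)
    letI := ih
    have h3 : Algebra.EssFiniteType (Polynomial (rat K r).F) (RatFunc (rat K r).F) :=
      Algebra.EssFiniteType.of_isLocalization (RatFunc (rat K r).F)
        (nonZeroDivisors (Polynomial (rat K r).F))
    have h4 : Algebra.EssFiniteType (rat K r).F (RatFunc (rat K r).F) :=
      Algebra.EssFiniteType.comp (rat K r).F (Polynomial (rat K r).F) (RatFunc (rat K r).F)
    exact Algebra.EssFiniteType.comp ℚ (rat K r).F (RatFunc (rat K r).F)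

lemma disc_rat {K : Type} [Field K] {a b : K} (hD : 4 * a ^ 3 + 27 * b ^ 2 ≠ 0) (r : ℕ) :
    4 * (inc K r a) ^ 3 + 27 * (inc K r b) ^ 2 ≠ 0 := by
  have h : inc K r (4 * a ^ 3 + 27 * b ^ 2) = 4 * (inc K r a) ^ 3 + 27 * (inc K r b) ^ 2 := by
    simp only [map_add, map_mul, map_pow, map_ofNat]
  rw [← h]
  exact (map_ne_zero _).2 hD

lemma sel_rat {K : Type} [Field K] [CharZero K] [Algebra.EssFiniteType ℚ K] {a b : K}
    (hD : 4 * a ^ 3 + 27 * b ^ 2 ≠ 0) {m : ℕ} (h : SelmerKilled K a b m) (r : ℕ) :
    SelKilledL (rat K r).F 2 (inc K r a) (inc K r b) m := by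
  induction r with
  | zero => exact h.toL
  | succ r ih =>
    letI := charZero_rat K r
    exact Pool.Agent.R425.CC.sel_transfer (EmbFG.main FrobRes.main) (ess_rat K r)
      (disc_rat hD r) ih

/-- **Theorem.** The boundedness of the Selmer groups of an elliptic curve over `K` passes from `K` to
`K(T₁, …, T_r)`.  The birational section conjecture over a finitely generated field `k` for the
curves which have, over a finite extension `k' = K(T₁, …, T_r)`, `r ≥ 1`, a nonconstant map to an
elliptic curve over `K`, the Selmer groups of which over `K` for the powers of two are bounded; the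
condition on the Selmer groups holds for the curves over `ℚ` with trivial 2-Selmer group and for all
`K` in a family of Galois 2-extensions of `ℚ`. -/
theorem result :
    (∀ (K : Type) [Field K] [CharZero K] [Algebra.EssFiniteType ℚ K] (a b : K),
      4 * a ^ 3 + 27 * b ^ 2 ≠ 0 → ∀ m : ℕ, SelmerKilled K a b m →
      ∀ r : ℕ, SelmerKilled (rat K r).F (inc K r a) (inc K r b) m) ∧
    (∀ (k : Type) [Field k] [CharZero k] [Algebra.EssFiniteType ℚ k]
      (F Ω B : Type) [Field F] [Field Ω] [Field B]
      [Algebra k F] [Algebra F Ω] [Algebra k Ω] [Algebra k B]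
      [IsScalarTower k F Ω] [IsAlgClosure F Ω] [IsAlgClosure k B],
      (∃ t : F, Transcendental k t ∧ Algebra.IsAlgebraic (IntermediateField.adjoin k {t}) F) →
      ∀ (k' : IntermediateField k Ω) [FiniteDimensional k k']
        (K : Type) [Field K] [CharZero K] [Algebra.EssFiniteType ℚ K] (r : ℕ)
        (ψ : (rat K (r + 1)).F →+* Ω), ψ.fieldRange = k'.toSubfield →
      ∀ a b : K, 4 * a ^ 3 + 27 * b ^ 2 ≠ 0 →
      ∀ m : ℕ, 1 ≤ m → SelmerKilled K a b m →
      ∀ x y : Ω, x ∈ IntermediateField.adjoin F (k' : Set Ω) →
        y ∈ IntermediateField.adjoin F (k' : Set Ω) → Transcendental k x →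
        y ^ 2 = x ^ 3 + ψ (inc K (r + 1) a) * x + ψ (inc K (r + 1) b) →
      ∀ s : GalSection k F Ω B,
        (∀ (L : Type) [Field L] [NumberField L] (v : HeightOneSpectrum (𝓞 L))
          (φ : k →+* v.adicCompletion L), GeometricAlong s φ) →
        ∃! O : ValuationSubring F, s.ArisesFrom O) ∧
    (∀ W : WeierstrassCurve ℤ, IsShort W → TrivialTwoSelmer W →
      ∀ (K : Type) [Field K] [NumberField K], IsTwoExtension W K →
        4 * (W.a₄ : K) ^ 3 + 27 * (W.a₆ : K) ^ 2 ≠ 0 ∧ SelmerKilled K (W.a₄ : K) (W.a₆ : K) 2) ∧
    (IsShort X11 ∧ TrivialTwoSelmer X11) := by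
  have hE : S_EmbFG := EmbFG.main FrobRes.main
  refine ⟨?_, ?_, ?_, ⟨⟨rfl, rfl, rfl⟩, Pool.Agent.R425.D.disc11⟩, Pool.Agent.R425.D.sel11s⟩
  · intro K _ _ _ a b hD m h r
    exact SelmerKilled.of (sel_rat hD h r)
  · intro k _ _ hk F Ω B _ _ _ _ _ _ _ _ _ _ hF k' _ K _ _ hK r ψ hψ a b hD m hm
      hsel x y hx hy hxt hxy s hloc
    letI := charZero_rat K r
    exact Pool.Agent.R425.CC.const_main (typesL (Types.main hE)) hE (ObsFG.main FrobRes.main hE)
      (Desc.main hE) EmbP.main ConjA.main hk hF k' (rat K r).F (ess_rat K r) ψ hψ
      (disc_rat hD r) hm (sel_rat hD hsel r) x y hx hy hxt hxy s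
      (fun i => hloc i.L i.v i.φ)
  · intro W hW hT K _ _ hK
    refine ⟨?_, SelmerKilled.of (Pool.Agent.R425.CC.selKilled_of_good (good_of hW hT hK))⟩
    have h1 : W.Δ = -16 * (4 * W.a₄ ^ 3 + 27 * W.a₆ ^ 2) := by
      rw [WeierstrassCurve.Δ, WeierstrassCurve.b₂, WeierstrassCurve.b₄, WeierstrassCurve.b₆,
        WeierstrassCurve.b₈, hW.1.1, hW.1.2.1, hW.1.2.2]
      ring
    have h2 : (4 * W.a₄ ^ 3 + 27 * W.a₆ ^ 2 : ℤ) ≠ 0 := by
      intro h
      apply hW.2
      rw [h1, h, mul_zero]
    have h3 : ((4 * W.a₄ ^ 3 + 27 * W.a₆ ^ 2 : ℤ) : K) ≠ 0 := Int.cast_ne_zero.2 h2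
    push_cast at h3
    exact h3

end Pool.Agent.Results.MP_8312c9_nt.ConstantEllipticCurves
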