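import Pool.Agent.R425.D.SecX

/-!
# Twisted fibre products without birational sections

Let `E_i : y² = f_i(x)`, `i = 1, …, n`, be elliptic curves over `ℚ` with trivial 2-Selmer groups, and let
`Y` be a closed subset of `(ℙ¹)ⁿ` over `ℚ`, for instance a curve.  For non-zero integers `D_1, …, D_n` let
`X_D` be the inverse image of `Y` in the product of the quadratic twists `D_i y_i² = f_i(x_i)`.  For a
curve `Y` the `X_D` are curves, in general of large genus, with `n` parameters; for `n = 2` and a map
`φ` of `ℙ¹` they are the curves `D_1 y² = f_1(x)`, `D_2 z² = f_2(φ(x))`.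

Theorem.  Suppose that on `X = X_(1,…,1)` there is no point over `ℚ_2` all whose components have orders
dividing `2 m`, `m` odd.  Let `D_1, …, D_n` be products `∏ (-1)^((q-1)/2) q` of primes `q ∤ 2Δ_i` modulo
which `E_i` has an odd number of points, which are squares in `ℚ_p` for the primes `p` dividing `2Δ_i`
(and positive if `Δ_i > 0`).  Let `F` be the function field of a curve with a map to `X_D`, or any
extension of `ℚ` over which `X_D` has a point.  Then there is no section of `Gal(Ω/F) → G_ℚ`, where `Ω`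
is an algebraic closure of `F`, which is geometric over the completions `ℚ_p`; by the theorem of
Koenigsmann all sections have this property.  More generally this is true for `Gal(M/F)`, where `M`
contains the maximal extension of `F` which is unramified at the places in any set `U`; for the
fundamental groups of curves the theorem thus excludes all sections which come from points over all
the `ℚ_p`.  Nothing is assumed about Tate-Shafarevich groups.

Example (second part of the theorem): the curves `D_1 y² = f(x)`, `D_2 z² = f(21039/x)` of genus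
five, where `y² = f(x) = x³ - 13392 x - 1080432` is an equation of `X_0(11)`.  According to a
computation (which is not part of the theorem) many of them have points over all completions of `ℚ`,
for example those with `(D_1, D_2) = (1, 1), (97, 1945), (313, 6913)`.

The proof.  The 2-Selmer groups of the `E_i` over `ℚ(√D_i)` are trivial; so `Ш(E_i^{D_i}/ℚ)[2] = 0` and
`E_i^{D_i}(ℚ)` has odd order.  A section gives a point of `E_i^{D_i}` over its fixed field and cocycles
of its division by `2 ^ k`, which are locally trivial, up to a factor two at the real place.  So twice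
the local points are divisible by `2 ^ k` for all `k`, and over `ℚ_2` their components have orders
dividing `2 m`, `m` odd.
-/

set_option autoImplicit false

open IsDedekindDomain NumberField WeierstrassCurve MvPolynomial Pool.Agent.TH954

open scoped Classical

namespace Pool.Agent.Results.MP_8312c9_nt.SectionsOfFibreProducts

/-- The 2-Selmer group of `W` over `ℚ` is trivial: `W(ℚ)` is finite of odd order and `Ш(W/ℚ)` has no
element of order two. -/
def TrivialTwoSelmer (W : WeierstrassCurve ℤ) : Prop :=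
  Finite (W.map (Int.castRingHom ℚ)).toAffine.Point ∧
  Odd (Nat.card (W.map (Int.castRingHom ℚ)).toAffine.Point) ∧
  ∀ s : Pool.Agent.TH841.NF.D.Sha (W.map (Int.castRingHom ℚ)), 2 • s = 0 → s = 0

/-- `W` is an elliptic curve `y² = x³ + a x + b` with integral coefficients. -/
def IsShort (W : WeierstrassCurve ℤ) : Prop := (W.a₁ = 0 ∧ W.a₂ = 0 ∧ W.a₃ = 0) ∧ W.Δ ≠ 0

/-- The number of the points of `W` over `ℤ/l`, with the point at infinity. -/
noncomputable def pointCount (W : WeierstrassCurve ℤ) (l : ℕ) : ℕ :=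
  Nat.card {P : ZMod l × ZMod l //
    (W.map (Int.castRingHom (ZMod l))).toAffine.Equation P.1 P.2} + 1

/-- The discriminant of the finite set `T` of odd primes, `∏_{q ∈ T} (-1)^((q-1)/2) q`. -/
def disc (T : Finset ℕ) : ℤ := ∏ q ∈ T, (-1) ^ ((q - 1) / 2) * (q : ℤ)

/-- `T` consists of primes `q ∤ 2Δ` such that `W` has an odd number of points over `ℤ/q`, the primes
dividing `2Δ` split in the quadratic field of discriminant `disc T` (so `disc T` is a square in
`ℚ_p` for these `p`), and `disc T` is positive if `Δ` is. -/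
structure Allowed (W : WeierstrassCurve ℤ) (T : Finset ℕ) : Prop where
  adm : ∀ q ∈ T, q.Prime ∧ ¬ (q : ℤ) ∣ 2 * W.Δ ∧ Odd (pointCount W q)
  split : ∀ p : ℕ, p.Prime → (p : ℤ) ∣ 2 * W.Δ → jacobiSym p (∏ q ∈ T, q) = 1
  pos : 0 < W.Δ → 0 < disc T

/-- The quadratic twist `y² = x³ + a D² x + b D³` of `y² = x³ + a x + b`; it is isomorphic to
`D y² = x³ + a x + b`. -/
def twist (W : WeierstrassCurve ℤ) (D : ℤ) : WeierstrassCurve ℤ :=
  ⟨0, 0, 0, W.a₄ * D ^ 2, W.a₆ * D ^ 3⟩

section twists

variable {n : ℕ}

/-- The polynomial `f` contains only even powers of the `y`-coordinates of the points. -/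
def EvenInY (f : MvPolynomial (Fin n × Fin 3) ℚ) : Prop := ∀ m ∈ f.support, ∀ i, Even (m (i, 1))

/-- The polynomial `f(X_i, Y_i / √D_i, D_i Z_i)`: if `f = 0` is an equation of `X` then this is the
equation of `X_D` in the coordinates of the curves `twist (W i) (D i)`, whose points are
`(X_i : Y_i : Z_i) = (D_i x_i : D_i ^ 2 y_i : 1)` with `D_i y_i² = x_i³ + a_i x_i + b_i`. -/
noncomputable def twistEq (D : Fin n → ℤ) (f : MvPolynomial (Fin n × Fin 3) ℚ) :
    MvPolynomial (Fin n × Fin 3) ℚ :=
  ∑ m ∈ f.support, monomial m (coeff m f *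
    ∏ i, (((D i : ℤ) : ℚ) ^ m (i, 2) * (((D i : ℤ) : ℚ)⁻¹) ^ (m (i, 1) / 2)))

/-- There is no point over `ℚ_2` of `X` all whose components have orders dividing `2 m`, `m` odd. -/
def NoTwoOddPoint (W : Fin n → WeierstrassCurve ℤ) (S : Set (MvPolynomial (Fin n × Fin 3) ℚ)) :
    Prop :=
  ∀ P : (i : Fin n) → ((W i).map (Int.castRingHom ℚ_[2])).toAffine.Point,
    (∀ f ∈ S, eval (fun p => crd (P p.1) p.2) (map (algebraMap ℚ ℚ_[2]) f) = 0) →
      ∃ i, ∀ m : ℕ, Odd m → (2 * m) • P i ≠ 0

end twists

/-- The curve `y² = x³ - 13392 x - 1080432`, a short equation of `X_0(11)`. -/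
def X11 : WeierstrassCurve ℤ := ⟨0, 0, 0, -13392, -1080432⟩

/-- The extension `F` of `ℚ` has no sections: let `Ω` be an algebraic closure of `F`, let `U` be a set of
valuation rings of `F` which contain `ℚ`, and let `M` be an extension of `F` inside `Ω` which contains
the maximal extension unramified at the places in `U` (for `U = ∅` this is `Ω`).  Then no section of
`Gal(M/F) → Gal(B/ℚ)`, `B` an algebraic closure of `ℚ`, is geometric over all the completions of `ℚ`
at the finite places. -/
def NoSections (F : Type) [Field F] [Algebra ℚ F] : Prop :=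
  ∀ (Ω M B : Type) [Field Ω] [Field M] [Field B] [Algebra F Ω] [Algebra ℚ Ω] [IsScalarTower ℚ F Ω]
    [Algebra F M] [Algebra ℚ M] [IsScalarTower ℚ F M] [Algebra ℚ B] [IsAlgClosure F Ω]
    [IsAlgClosure ℚ B] (U : Set (ValuationSubring F)),
    (∀ O ∈ U, ∀ c : ℚ, algebraMap ℚ F c ∈ O) → ∀ e : M →ₐ[F] Ω,
    Pool.Agent.W620.SC.unramified F Ω U ≤ e.fieldRange →
    ¬ ∃ s : GalSection ℚ F M B, ∀ v : HeightOneSpectrum (𝓞 ℚ),
      s.GeometricOver (v.adicCompletion ℚ) (AlgebraicClosure (v.adicCompletion ℚ))

lemma allowed_of {W : WeierstrassCurve ℤ} {T : Finset ℕ} (h : Allowed W T) :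
    Pool.Agent.R425.D.Allowed W T :=
  ⟨h.adm, h.split, h.pos⟩

lemma free_of {n : ℕ} {W : Fin n → WeierstrassCurve ℤ} {S : Set (MvPolynomial (Fin n × Fin 3) ℚ)}
    (h : NoTwoOddPoint W S) : Pool.Agent.R425.D.TwoOddFree W S := by
  intro P hP
  exact h P fun f hf => hP _ ⟨f, hf, rfl⟩

theorem result :
    (∀ (n : ℕ) (W : Fin n → WeierstrassCurve ℤ), (∀ i, IsShort (W i)) →
      (∀ i, TrivialTwoSelmer (W i)) →
      ∀ S : Set (MvPolynomial (Fin n × Fin 3) ℚ), (∀ f ∈ S, EvenInY f ∧ ∃ d, MultiHom d f) →
      NoTwoOddPoint W S →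
      ∀ T : Fin n → Finset ℕ, (∀ i, Allowed (W i) (T i)) →
      ∀ (F : Type) [Field F] [Algebra ℚ F]
        (P : (i : Fin n) →
          (((twist (W i) (disc (T i))).map (Int.castRingHom ℚ)).baseChange F).toAffine.Point),
        OnX (twistEq (fun i => disc (T i)) '' S) (fun i => crd (P i)) → NoSections F) ∧
    (∀ T₁ T₂ : Finset ℕ, Allowed X11 T₁ → Allowed X11 T₂ →
      ∀ (F : Type) [Field F] [Algebra ℚ F] (x y z : F), x ≠ 0 →
        (disc T₁ : F) * y ^ 2 = x ^ 3 - 13392 * x - 1080432 →
        (disc T₂ : F) * z ^ 2 = (21039 / x) ^ 3 - 13392 * (21039 / x) - 1080432 →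
        NoSections F) := by
  constructor
  · intro n W hW hT S hS hno T hA F _ _ P hP Ω M B _ _ _ _ _ _ _ _ _ _ _ _ U hU e he
    have e1 : twistEq (fun i => disc (T i)) '' S = {g | ∃ f ∈ S,
        g = Pool.Agent.R425.D.twp (fun i => Pool.Agent.Y18.BSD.disc (T i)) f} := by
      ext g
      constructor
      · rintro ⟨f, hf, rfl⟩
        exact ⟨f, hf, rfl⟩
      · rintro ⟨f, hf, rfl⟩
        exact ⟨f, hf, rfl⟩
    rw [e1] at hP
    exact Pool.Agent.R425.D.thmS2 (fun i => (hW i).1) (fun i => (hW i).2) hT S hS (free_of hno) T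
      (fun i => allowed_of (hA i)) U hU e he P hP
  · intro T₁ T₂ h₁ h₂ F _ _ x y z hx hy hz Ω M B _ _ _ _ _ _ _ _ _ _ _ _ U hU e he
    have hA : ∀ i : Fin 2, Pool.Agent.R425.D.Allowed Pool.Agent.R425.D.E11s
        ((![T₁, T₂] : Fin 2 → Finset ℕ) i) := by
      intro i
      fin_cases i
      · exact allowed_of h₁
      · exact allowed_of h₂
    obtain ⟨P, hP⟩ := Pool.Agent.R425.D.ex_pts ![T₁, T₂] hA x y z hx hy hz
    exact Pool.Agent.R425.D.thmS2 (W := fun _ : Fin 2 => Pool.Agent.R425.D.E11s)
      (fun i => ⟨rfl, rfl, rfl⟩) (fun i => Pool.Agent.R425.D.disc11)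
      (fun i => Pool.Agent.R425.D.sel11s) Pool.Agent.R425.D.exS Pool.Agent.R425.D.exS_me
      Pool.Agent.R425.D.ex_free2 ![T₁, T₂] hA U hU e he P hP

end Pool.Agent.Results.MP_8312c9_nt.SectionsOfFibreProducts
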