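import Pool.Agent.R925.FD.Sec4

/-!
# The birational section conjecture for almost all twists of a cyclic covering of a fixed curve

Let `D : b y ^ n = ∏ k, g k (z)` be a curve over `ℚ`, where the `g k` are polynomials with integral
coefficients, of degrees divisible by `n`, pairwise coprime, and let `h` be a polynomial with integral
coefficients, coprime to the `g k`. For a squarefree integer `a` and `m ≥ 2`, `m ∣ deg h`, consider

  `C a : b y ^ n = ∏ k, g k (z)`, `a x ^ m = h (z)`.

It is a cyclic covering of degree `m` of the fixed curve `D`, and for different `a` these coverings are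
twists of each other. We consider sections `s` of `Gal(Ω/F) → G_ℚ`, where `F` is the function field
of `C a`, of a covering of it or of a variety with a dominant map to it, which are geometric over the
completions of `ℚ` at the finite places; by the theorem of Koenigsmann on sections over local fields
all sections have this property.

By Kummer theory, `g k (z) = δ k * γ k ^ n` with rational numbers `δ k`, `∏ δ k = b t ^ n`, and
elements `γ k` of `Ω` which are fixed by the section: the class `δ` of the section. Call `δ`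
persistent if every automorphism `σ` of the field of algebraic numbers fixes a zero `β` of `h` and
solutions `y k` of `g k (β) = δ k * y k ^ n` (all `k`). We prove:

(1) For all squarefree `a`, `|a| ≤ X`, with at most `C X (log X) ^ (-κ)` exceptions, `κ > 0`, and all
`m`, all the sections have a persistent class.

(2) For `D : y² = (z² + 51) (z² - 1)` and `h = (z² + 1) (z² - 17) (z² + 17)` there are no persistent
classes. So for almost all `a` there are no sections, although all the curves `C a`, `m ∈ {2, 3, 6}`,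
have points over `ℝ` and all `ℚ_p`.

(3) Let `n = 2`, and suppose that every persistent class is the class of a rational zero `α` of `h`,
that is, `δ k * g k (α)` is a square for all `k`. This is so if the zeros of `h` are one or two
integers, or if they are one integer and numbers `± √D`, `D` not a square. Suppose that for some set `T`
of indices the product `f = ∏ g k`, `k ∈ T`, is a quartic polynomial with a rational zero for which
`f(α) y² = f(z)` is an elliptic curve with only finitely many rational points, whose Tate-Shafarevich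
group is killed by a positive integer, for all integral zeros `α` of `h`. Then for almost all
squarefree `a` every section arises from exactly one rational point, and `x = 0` there.

(4) The condition in (3) is satisfied by `f = (z - 60) (z - 30) (z - 20) (z - 15)` and the zeros `0`
and `24`, with an elliptic curve of conductor `24` and rank `0`; that its Tate-Shafarevich group is
killed by a positive integer is a theorem of Kolyvagin, which we use as a hypothesis. So the
birational section conjecture holds for almost all the curves `b y² = f(z) g₁(z)`,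
`a x ^ m = z (z - 24) ^ (m - 1)` and their coverings, where `g₁` is any polynomial of even degree which
is coprime to `z (z - 24) f(z)`. With `u = z / (z - 24) = a t ^ m` these are the twists
`6 b y² = (u² - 25) (9 u² - 25) G₁(u)`, `u = a t ^ m`, of a hyperelliptic curve by automorphisms of
order `m`; the points with `x = 0` are those with `t = 0` and `t = ∞`. The elliptic curve is not
covered by the curve `C a` in general, but the sections have the class of one of these points, and so
they give points of it over their fixed fields.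
-/

set_option autoImplicit false

namespace Pool.Agent.Results.MP_8312c9_nt.SectionsOfTwistedCoverings

open Polynomial Pool.Agent.R925.FD Pool.Agent.TH954 Pool.Agent.TH942

/-- The conditions on the polynomials: nonzero, the `g k` of degrees divisible by `n`, pairwise
coprime over `ℚ` and coprime to `h`. -/
structure Admissible {K : Type} (n : ℕ) (b : ℤ) (g : K → ℤ[X]) (h : ℤ[X]) : Prop where
  n_pos : 0 < n
  b_ne : b ≠ 0
  g_ne : ∀ k, g k ≠ 0
  h_ne : h ≠ 0
  deg : ∀ k, n ∣ (g k).natDegree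
  coprime : ∀ k l, k ≠ l →
    IsCoprime ((g k).map (Int.castRingHom ℚ)) ((g l).map (Int.castRingHom ℚ))
  coprime_h : ∀ k, IsCoprime (h.map (Int.castRingHom ℚ)) ((g k).map (Int.castRingHom ℚ))

/-- There are no sections of `Gal(Ω/F) → G_ℚ` which are geometric over the completions of `ℚ` at the
finite places, for all extensions `F` of the function field of `C a`. -/
def NoSections {K : Type} [Fintype K] (n m : ℕ) (b a : ℤ) (g : K → ℤ[X]) (h : ℤ[X]) : Prop :=
  ∀ (F Ω B : Type) [Field F] [Field Ω] [Field B] [Algebra ℚ F] [Algebra F Ω] [Algebra ℚ Ω]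
    [Algebra ℚ B] [IsScalarTower ℚ F Ω] [IsAlgClosure F Ω] [IsAlgClosure ℚ B] (z x y : F),
    Transcendental ℚ z → (b : F) * y ^ n = ∏ k, aeval z (g k) → (a : F) * x ^ m = aeval z h →
    ¬ ∃ s : GalSection ℚ F Ω B, LocallyGeometric s

/-- `z (z - 24) ^ (m - 1)` -/
noncomputable def exh' (m : ℕ) : ℤ[X] := X * (X - C 24) ^ (m - 1)

lemma exh'_ne (m : ℕ) : exh' m ≠ 0 := by
  unfold exh'
  exact mul_ne_zero X_ne_zero (pow_ne_zero _ (X_sub_C_ne_zero 24))

lemma exh'_deg {m : ℕ} (hm : 2 ≤ m) : (exh' m).natDegree = m := by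
  unfold exh'
  rw [natDegree_mul X_ne_zero (pow_ne_zero _ (X_sub_C_ne_zero 24)), natDegree_X, natDegree_pow,
    natDegree_X_sub_C]
  omega

lemma exf_ne : exf ≠ 0 := by
  unfold exf
  exact mul_ne_zero (mul_ne_zero (mul_ne_zero (X_sub_C_ne_zero _) (X_sub_C_ne_zero _))
    (X_sub_C_ne_zero _)) (X_sub_C_ne_zero _)

lemma exf_deg : exf.natDegree = 4 := by
  unfold exf
  compute_degree!

lemma cop {r s : ℚ} (h : r ≠ s) : IsCoprime (X - C r : ℚ[X]) (X - C s) :=
  isCoprime_X_sub_C_of_isUnit_sub (sub_ne_zero.2 h).isUnit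

lemma map_exf : exf.map (Int.castRingHom ℚ) =
    (X - C 60) * (X - C 30) * (X - C 20) * (X - C 15) := by
  simp only [exf, Polynomial.map_mul, Polynomial.map_sub, map_X, map_C]
  norm_num

lemma map_exh' (m : ℕ) : (exh' m).map (Int.castRingHom ℚ) = (X - C 0) * (X - C 24) ^ (m - 1) := by
  simp only [exh', Polynomial.map_mul, Polynomial.map_sub, Polynomial.map_pow, map_X, map_C,
    C_0, sub_zero]
  norm_num

lemma cop_exf (m : ℕ) : IsCoprime ((exh' m).map (Int.castRingHom ℚ))
    (exf.map (Int.castRingHom ℚ)) := by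
  rw [map_exf, map_exh']
  refine IsCoprime.mul_left ?_ (IsCoprime.pow_left ?_)
  · exact IsCoprime.mul_right (IsCoprime.mul_right (IsCoprime.mul_right (cop (by norm_num))
      (cop (by norm_num))) (cop (by norm_num))) (cop (by norm_num))
  · exact IsCoprime.mul_right (IsCoprime.mul_right (IsCoprime.mul_right (cop (by norm_num))
      (cop (by norm_num))) (cop (by norm_num))) (cop (by norm_num))

lemma adm {b : ℤ} (hb : b ≠ 0) {g₁ : ℤ[X]} (hg₁ : g₁ ≠ 0) (hdeg : 2 ∣ g₁.natDegree) {m : ℕ}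
    (hf : IsCoprime (exf.map (Int.castRingHom ℚ)) (g₁.map (Int.castRingHom ℚ)))
    (hh : IsCoprime ((exh' m).map (Int.castRingHom ℚ)) (g₁.map (Int.castRingHom ℚ))) :
    Admissible 2 b ![exf, g₁] (exh' m) := by
  refine ⟨by norm_num, hb, ?_, exh'_ne m, ?_, ?_, ?_⟩
  · intro k
    fin_cases k
    · exact exf_ne
    · exact hg₁
  · intro k
    fin_cases k
    · change 2 ∣ exf.natDegree
      rw [exf_deg]
      norm_num
    · exact hdeg
  · intro k l hkl
    fin_cases k <;> fin_cases l
    · exact absurd rfl hkl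
    · exact hf
    · exact hf.symm
    · exact absurd rfl hkl
  · intro k
    fin_cases k
    · exact cop_exf m
    · exact hh

lemma zeros_exh' {m : ℕ} (hm : 2 ≤ m) (β : AlgebraicClosure ℚ) :
    aeval β (exh' m) = 0 ↔ β = ((0 : ℤ) : AlgebraicClosure ℚ) ∨
      β = ((24 : ℤ) : AlgebraicClosure ℚ) := by
  have h1 : aeval β (exh' m) = β * (β - 24) ^ (m - 1) := by
    simp only [exh', map_mul, map_pow, map_sub, aeval_X, aeval_C]
    norm_num
  rw [h1, mul_eq_zero, pow_eq_zero_iff (by omega : m - 1 ≠ 0), sub_eq_zero]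
  norm_num

lemma eval_exh' {m : ℕ} (hm : 2 ≤ m) (α : ℤ) (h : (exh' m).eval α = 0) : α = 0 ∨ α = 24 := by
  have h1 : (exh' m).eval α = α * (α - 24) ^ (m - 1) := by
    simp [exh']
  rw [h1, mul_eq_zero, pow_eq_zero_iff (by omega : m - 1 ≠ 0), sub_eq_zero] at h
  exact h

theorem result :
    (∀ (K : Type) [Fintype K] (n : ℕ) (b : ℤ) (g : K → ℤ[X]) (h : ℤ[X]), Admissible n b g h →
      ∃ κ : ℝ, 0 < κ ∧ ∃ C : ℝ, ∀ X : ℕ, 3 ≤ X →
        ({a : ℤ | a.natAbs ≤ X ∧ Squarefree a ∧ ∃ m, 2 ≤ m ∧ m ∣ h.natDegree ∧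
          ¬ SectionsPersistent n m b a g h}.ncard : ℝ) ≤ C * X * (Real.log X) ^ (-κ)) ∧
    ((∀ (a : ℤ) (m : ℕ), m ≠ 0 → CurveHasPoint 2 m 1 a exg exh ℝ ∧
        ∀ (p : ℕ) [Fact p.Prime], CurveHasPoint 2 m 1 a exg exh ℚ_[p]) ∧
      ∃ κ : ℝ, 0 < κ ∧ ∃ C : ℝ, ∀ X : ℕ, 3 ≤ X →
        ({a : ℤ | a.natAbs ≤ X ∧ Squarefree a ∧ ∃ m, 2 ≤ m ∧ m ∣ exh.natDegree ∧
          ¬ NoSections 2 m 1 a exg exh}.ncard : ℝ) ≤ C * X * (Real.log X) ^ (-κ)) ∧
    (∀ (K : Type) [Fintype K] (b : ℤ) (g : K → ℤ[X]) (h : ℤ[X]), Admissible 2 b g h →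
      (∀ α₁ α₂ : ℤ, (∀ β : AlgebraicClosure ℚ, aeval β h = 0 ↔ β = α₁ ∨ β = α₂) →
        OnlyZeros b g h) ∧
      (∀ (α : ℤ) (D : ℚ), ¬ IsSquare D → h.eval α = 0 →
        (∀ β : AlgebraicClosure ℚ, aeval β h = 0 → β = α ∨ β ^ 2 = D) → OnlyZeros b g h) ∧
      (OnlyZeros b g h → ∀ (M₀ : ℕ) (T : Finset K), 1 ≤ M₀ →
        (∀ α : ℤ, h.eval α = 0 → EllipticFactor (∏ k ∈ T, g k) α M₀) →
        ∃ κ : ℝ, 0 < κ ∧ ∃ C : ℝ, ∀ X : ℕ, 3 ≤ X →
          ({a : ℤ | a.natAbs ≤ X ∧ Squarefree a ∧ ∃ m, 2 ≤ m ∧ m ∣ h.natDegree ∧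
            ¬ SectionsFromZeros 2 m b a g h}.ncard : ℝ) ≤ C * X * (Real.log X) ^ (-κ))) ∧
    (∀ M₀ : ℕ, 1 ≤ M₀ → ShaKilledBy (sw (-351) (1890 : ℚ)) M₀ →
      EllipticFactor exf 0 M₀ ∧ EllipticFactor exf 24 M₀ ∧
      ∀ (b : ℤ) (g₁ : ℤ[X]) (m : ℕ), b ≠ 0 → g₁ ≠ 0 → 2 ∣ g₁.natDegree →
        IsCoprime (exf.map (Int.castRingHom ℚ)) (g₁.map (Int.castRingHom ℚ)) →
        IsCoprime ((exh' m).map (Int.castRingHom ℚ)) (g₁.map (Int.castRingHom ℚ)) → 2 ≤ m →
        ∃ κ : ℝ, 0 < κ ∧ ∃ C : ℝ, ∀ X : ℕ, 3 ≤ X →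
          ({a : ℤ | a.natAbs ≤ X ∧ Squarefree a ∧
            ¬ SectionsFromZeros 2 m b a ![exf, g₁] (exh' m)}.ncard : ℝ) ≤
            C * X * (Real.log X) ^ (-κ)) := by
  classical
  have hfin : ∀ (X : ℕ) (S : Set ℤ), (∀ a ∈ S, a.natAbs ≤ X) → S.Finite := by
    intro X S hS
    apply (Set.finite_Icc (-(X : ℤ)) X).subset
    intro d hd
    have h1 := hS d hd
    rw [Set.mem_Icc]
    omega
  refine ⟨fun K _ n b g h hA => sec_main hA.n_pos hA.b_ne hA.g_ne hA.h_ne hA.deg hA.coprime
    hA.coprime_h, ⟨fun a m hm => ⟨ex_real m hm a, fun p _ => ex_padic m hm a p⟩, ?_⟩,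
    fun K _ b g h hA => ⟨fun α₁ α₂ hz => onlyZeros_two hA.h_ne hA.coprime_h α₁ α₂ hz,
      fun α D hD hα hz => onlyZeros_quad hA.h_ne hA.coprime_h α D hD hα hz,
      fun hOZ M₀ T hM₀ hT => fromZeros_main hA.b_ne hA.g_ne hA.h_ne hA.deg hA.coprime
        hA.coprime_h hOZ hM₀ T hT⟩,
    fun M₀ hM₀ hSha => ⟨exf_factor hSha 0 (Or.inl rfl), exf_factor hSha 24 (Or.inr rfl), ?_⟩⟩
  · obtain ⟨κ, hκ, C, hC⟩ := sec_main (n := 2) (by norm_num) one_ne_zero exg_ne exh_ne
      (fun k => by rw [exg_deg k]) exg_coprime exgh_coprime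
    refine ⟨κ, hκ, C, fun X hX => le_trans ?_ (hC X hX)⟩
    refine Nat.cast_le.2 (Set.ncard_le_ncard ?_ (hfin X _ fun a ha => ha.1))
    rintro a ⟨h1, h2, m, hm, hmh, hno⟩
    refine ⟨h1, h2, m, hm, hmh, fun hP => hno ?_⟩
    intro F Ω B _ _ _ _ _ _ _ _ _ _ z x y hz hy hx ⟨s, hs⟩
    obtain ⟨δ, h3, -, h4⟩ := hP F Ω B z x y hz hy hx s hs
    exact ex_not_persistent δ (h3.1 0) h4
  · intro b g₁ m hb hg₁ hdeg hf hh hm
    have hA := adm hb hg₁ hdeg hf hh
    have hprod : ∏ k ∈ ({0} : Finset (Fin 2)), (![exf, g₁] : Fin 2 → ℤ[X]) k = exf := by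
      rw [Finset.prod_singleton]
      rfl
    obtain ⟨κ, hκ, C, hC⟩ := fromZeros_main hA.b_ne hA.g_ne hA.h_ne hA.deg hA.coprime hA.coprime_h
      (onlyZeros_two hA.h_ne hA.coprime_h 0 24 (zeros_exh' hm)) hM₀ {0} (fun α hα => by
        rw [hprod]
        exact exf_factor hSha α (eval_exh' hm α hα))
    refine ⟨κ, hκ, C, fun X hX => le_trans ?_ (hC X hX)⟩
    refine Nat.cast_le.2 (Set.ncard_le_ncard ?_ (hfin X _ fun a ha => ha.1))
    rintro a ⟨h1, h2, hno⟩
    exact ⟨h1, h2, m, hm, by rw [exh'_deg hm], hno⟩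

end Pool.Agent.Results.MP_8312c9_nt.SectionsOfTwistedCoverings
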