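import Pool.Agent.R425.D.SecT

/-!
# Sections over Galois 2-extensions

Let `E_1, …, E_n` be elliptic curves over `ℚ` with trivial 2-Selmer groups over `ℚ`, such that the points
over `ℚ_2` of orders dividing `2 m`, `m` odd, are rational, for example `X_0(11)`.  Let `K` be any Galois
extension of `ℚ` of degree a power of two, which need not be abelian, ramified only at primes `l` of
good reduction such that the number of the points of every `E_i` over `ℤ/l` is odd, and in which the
primes dividing the discriminants and two split completely (and which is totally real if one of the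
discriminants is positive).  Let `X` be any closed subset of `E_1 × … × E_n` defined over `K`, and let
`F` be the function field of a curve over `K` with a map to `X`, or any extension of `K` over which
`X` has a point.

Theorem.  Let `Ω` be an algebraic closure of `F` and let `s` be a section of `Gal(Ω/F) → G_K` which is
given by points over the completions of `K` at the finite places; by the theorem of Koenigsmann all
sections have this property.  Then the points of `X` at the places above two are `K`-rational points of
`X`.  In particular there are no sections if `X(K)` is empty.  More generally this is true for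
`Gal(M/F)`, where `M` contains the maximal extension of `F` which is unramified at the places in any
set `U`, that is, for fundamental groups of curves.

Nothing is assumed about the Tate-Shafarevich groups of the `E_i` over `K`: what is needed about their
2-primary parts is proved, and the other parts are not used.

The proof.  `E_i(K)` is finite of odd order and `Ш(E_i/K)[2] = 0`.  A section gives a point of `E_i`
over its fixed field and cocycles of its division by `2 ^ k`, which are locally trivial, up to a factor
two at the real places.  So twice the local points are divisible by `2 ^ k` for all `k`, and over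
`K_v = ℚ_2` their components have orders dividing `2 m`, `m` odd.
-/

set_option autoImplicit false

open IsDedekindDomain NumberField WeierstrassCurve MvPolynomial Pool.Agent.TH954

open scoped Classical

namespace Pool.Agent.Results.MP_8312c9_nt.SectionsOverTwoExtensions

/-- The `K`-rational points of the closed subset `X` of `E_1 × … × E_n` defined by the equations in
`S` in the homogeneous coordinates of the `n` points. -/
def RationalPoints {K : Type} [Field K] {n : ℕ} (E : Fin n → WeierstrassCurve K)
    (S : Set (MvPolynomial (Fin n × Fin 3) K)) : Set ((i : Fin n) → (E i).toAffine.Point) :=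
  {y | ∀ f ∈ S, eval (fun p => crd (y p.1) p.2) f = 0}

/-- The 2-Selmer group of `W` over `ℚ` is trivial: `W(ℚ)` is finite of odd order and `Ш(W/ℚ)` has no
element of order two. -/
def TrivialTwoSelmer (W : WeierstrassCurve ℤ) : Prop :=
  Finite (W.map (Int.castRingHom ℚ)).toAffine.Point ∧
  Odd (Nat.card (W.map (Int.castRingHom ℚ)).toAffine.Point) ∧
  ∀ s : Pool.Agent.TH841.NF.D.Sha (W.map (Int.castRingHom ℚ)), 2 • s = 0 → s = 0

/-- All the points of `W(ℚ_2)` of orders dividing `2 m`, `m` odd, are rational. -/
def TwoOddRational (W : WeierstrassCurve ℤ) : Prop :=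
  ∀ (P : (W.map (Int.castRingHom ℚ_[2])).toAffine.Point) (m : ℕ), Odd m → (2 * m) • P = 0 →
    ∃ y : (W.map (Int.castRingHom ℚ)).toAffine.Point, ∀ j, crd P j = algebraMap ℚ ℚ_[2] (crd y j)

/-- `W` is an elliptic curve `y² = x³ + a x + b` with integral coefficients. -/
def IsShort (W : WeierstrassCurve ℤ) : Prop := (W.a₁ = 0 ∧ W.a₂ = 0 ∧ W.a₃ = 0) ∧ W.Δ ≠ 0

/-- The number of the points of `W` over `ℤ/l`, with the point at infinity. -/
noncomputable def pointCount (W : WeierstrassCurve ℤ) (l : ℕ) : ℕ :=
  Nat.card {P : ZMod l × ZMod l //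
    (W.map (Int.castRingHom (ZMod l))).toAffine.Equation P.1 P.2} + 1

/-- `K` is a Galois extension of `ℚ` of degree a power of two, ramified only at primes `l ∤ 2 ∏ Δ_i` such
that the numbers of the points of the curves over `ℤ/l` are odd; the prime ideals containing
`2 ∏ Δ_i` have residue degree one (and, `K` being Galois and unramified at them, these primes split
completely); and if one of the discriminants is positive then `K` is totally real. -/
structure IsTwoExtension {n : ℕ} (W : Fin n → WeierstrassCurve ℤ) (K : Type) [Field K]
    [NumberField K] : Prop where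
  galois : IsGalois ℚ K
  degree : ∃ j, Module.finrank ℚ K = 2 ^ j
  ramified : ∀ l : ℕ, l.Prime → (l : ℤ) ∣ NumberField.discr K →
    ¬ (l : ℤ) ∣ 2 * ∏ i, (W i).Δ ∧ ∀ i, Odd (pointCount (W i) l)
  split : ∀ v : HeightOneSpectrum (𝓞 K), ((2 * ∏ i, (W i).Δ : ℤ) : 𝓞 K) ∈ v.asIdeal →
    (Ideal.absNorm v.asIdeal).Prime
  real : ∀ i, 0 < (W i).Δ → ∀ v : InfinitePlace K, v.IsReal

/-- The curve `y² = x³ - 13392 x - 1080432`, a short equation of `X_0(11)`. -/
def X11 : WeierstrassCurve ℤ := ⟨0, 0, 0, -13392, -1080432⟩

lemma ext_of {K : Type} [Field K] [NumberField K] {n : ℕ} {W : Fin n → WeierstrassCurve ℤ}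
    (h : IsTwoExtension W K) : Pool.Agent.R425.D.TwoExt W K :=
  ⟨h.galois, h.degree, h.ramified, h.split, h.real⟩

theorem result :
    (∀ (n : ℕ) (W : Fin n → WeierstrassCurve ℤ), (∀ i, IsShort (W i)) →
      (∀ i, TrivialTwoSelmer (W i)) → (∀ i, TwoOddRational (W i)) →
      ∀ (K : Type) [Field K] [NumberField K], IsTwoExtension W K →
      ∀ S : Set (MvPolynomial (Fin n × Fin 3) K), (∀ f ∈ S, ∃ d, MultiHom d f) →
      ∀ (F Ω M B : Type) [Field F] [Field Ω] [Field M] [Field B] [Algebra K F] [Algebra F Ω]
        [Algebra K Ω] [IsScalarTower K F Ω] [Algebra F M] [Algebra K M] [IsScalarTower K F M]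
        [Algebra K B] [IsAlgClosure F Ω] [IsAlgClosure K B] (U : Set (ValuationSubring F)),
        (∀ O ∈ U, ∀ c : K, algebraMap K F c ∈ O) → ∀ e : M →ₐ[F] Ω,
        Pool.Agent.W620.SC.unramified F Ω U ≤ e.fieldRange →
      ∀ P : (i : Fin n) → (((W i).map (Int.castRingHom K)).baseChange F).toAffine.Point,
        OnX S (fun i => crd (P i)) →
      ∀ (s : GalSection K F M B)
        (p : ∀ v : HeightOneSpectrum (𝓞 K), Plc K M (AlgebraicClosure (v.adicCompletion K))),
        (∀ v, s.GivenBy (v.adicCompletion K) (p v)) →
        (RationalPoints (fun i => (W i).map (Int.castRingHom K)) S).Nonempty ∧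
        ∀ v : HeightOneSpectrum (𝓞 K), ((2 : ℕ) : 𝓞 K) ∈ v.asIdeal →
          ∃ y ∈ RationalPoints (fun i => (W i).map (Int.castRingHom K)) S,
            ∀ i, (p v).Spec (fun j => algebraMap F M (crd (P i) j))
              (fun j => algebraMap K (AlgebraicClosure (v.adicCompletion K)) (crd (y i) j))) ∧
    (IsShort X11 ∧ TrivialTwoSelmer X11 ∧ TwoOddRational X11) := by
  refine ⟨?_, ?_, ?_, ?_⟩
  · intro n W hW hT hR K _ _ hK S hS F Ω M B _ _ _ _ _ _ _ _ _ _ _ _ _ _ U hU e he P hP s p hp
    have key : ∀ v : HeightOneSpectrum (𝓞 K), ((2 : ℕ) : 𝓞 K) ∈ v.asIdeal →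
          ∃ y ∈ RationalPoints (fun i => (W i).map (Int.castRingHom K)) S,
            ∀ i, (p v).Spec (fun j => algebraMap F M (crd (P i) j))
              (fun j => algebraMap K (AlgebraicClosure (v.adicCompletion K)) (crd (y i) j)) := by
      intro v hv
      obtain ⟨y, hy1, hy2⟩ := Pool.Agent.R425.D.thmS1 (fun i => (hW i).1) (fun i => (hW i).2) hT hR
        (ext_of hK) S hS U hU e he P hP s p hp v hv
      exact ⟨y, hy1, hy2⟩
    obtain ⟨v, hv⟩ := Pool.Agent.R425.D.exists_two K
    obtain ⟨y, hy, -⟩ := key v hv
    exact ⟨⟨y, hy⟩, key⟩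
  · exact ⟨⟨rfl, rfl, rfl⟩, Pool.Agent.R425.D.disc11⟩
  · exact Pool.Agent.R425.D.sel11s
  · exact Pool.Agent.R425.D.twoOddRat11

end Pool.Agent.Results.MP_8312c9_nt.SectionsOverTwoExtensions
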